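import Pool.Agent.W661.RC.UMain

/-!
# Relative commutants of Kazhdan groups in matrix ultraproducts are ultraproducts of centralizers

Let `G` be a group with property (T), `S` a finite symmetric generating set and `π` a homomorphism
from `G` to the unitary group of the tracial ultraproduct of the matrix algebras `M_{d n}`. Then
the generators `s ∈ S` have unitary lifts `g s n ∈ U(d n)` such that `π(G)' ∩ ∏_𝒰 M_{d n}` is the
ultraproduct of the centralizers of `{g s n : s ∈ S}`.

Idea of the proof (a linear version of a decomposition into expanders).

* Property (T) gives a uniform spectral gap for conjugation, and by compactness a smoothing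
  operator `Φ` for almost representations: near-invariant matrices (in the sense of a small but
  fixed constant) are close to matrices which are much better invariant (`PTA`, `PTB`, `PTC`,
  `PTD`); spectral projections of smoothed projections give near-invariant projections (`LEV`,
  `IMP`, `ICL`).
* Greedy choice of near-invariant projections `f_i` of nearly minimal trace which have small
  overlap with the soft support `1 - (1 + λ Q_i)⁻¹` of `Q_i = f_0 + ... + f_{i-1}` (`GRE`).
  Resolvent estimates (`RESA`, `RESB`), a potential argument for the transition region (`DAR`), and
  comparison of projections (`CUT`) show that all but a small part of the mass consists of choices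
  which are almost orthogonal to the earlier ones, near-minimal, and thus contain no near-invariant
  subprojection of medium size (`PIC1`, `PIC2`, `MAS`, `IRR`, `COR`), and that the choices exhaust
  almost the whole space (`COV`, `DEC`).
* An isoperimetric gap for projections gives a spectral gap for matrices (`GAP`); near-intertwiners
  between pieces are near multiples of partial isometries, which are improved by smoothing
  (`POL`, `INT`, `CLS`); the pieces are assembled to a block structure, and all near-invariant
  matrices are close to the block algebra (`NIS`, `CMB`, `AS0`, `AS1`, `AS2`, `FIN`).
* Generic perturbation gives unitary matrices whose centralizer is the block algebra (`UNI`, `GE1`,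
  `GE2`), and a diagonal argument gives the theorem (`LFT`, `MID`, `RE2`).
-/

set_option autoImplicit false

namespace Pool.Agent.Results.MP_e86729_an.LiftedCentralizers

open Matrix Filter Topology Pool.Agent.W661.RCU

/-- **The relative commutant of a Kazhdan group in a matrix ultraproduct is the ultraproduct of the
centralizers of suitable unitary lifts of the generators.** -/
theorem result (G : Type) [Group G] [Countable G] (S : Finset G) (𝒰 : Ultrafilter ℕ)
    (d : ℕ → ℕ) (π : UHom G 𝒰 d) (hT : HasT G) (hsymm : ∀ s ∈ S, s⁻¹ ∈ S)
    (hgen : Subgroup.closure (S : Set G) = ⊤) (hfree : (𝒰 : Filter ℕ) ≤ cofinite)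
    (hd : ∀ n, 0 < d n) :
    ∃ g : G → Sq d, (∀ s n, ((g s).1 n)ᴴ * (g s).1 n = 1) ∧
      (∀ s ∈ S, cls 𝒰 (g s) = π.map s) ∧
      Com π = Ult 𝒰 (fun n => {x | ∀ s ∈ S, x * (g s).1 n = (g s).1 n * x}) :=
  final2 G S 𝒰 d π hT hsymm hgen hfree hd

end Pool.Agent.Results.MP_e86729_an.LiftedCentralizers
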